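import Mathlib
import Pool.Agent.X115.RelC.C
import Pool.Agent.X115.Dec.Fin

/-!
# The relative Lehmer inequality over an arbitrary field, for numbers with CM relative traces

Let `L` be any field of complex numbers, for instance `L = ℚ(Γ_div)` for a subgroup `Γ` of `ℂ*`.
Let `α ≠ 0` be algebraic, `X ^ D + c_1 X ^ (D-1) + ... + c_D` its minimal polynomial over `L`,
`c_0 = 1`. Call an algebraic number CM if complex conjugation commutes with all embeddings at this
number (numbers in totally real fields and in CM fields). Suppose that there is `k` in `{1, ..., D}`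
such that `c_1, ..., c_k` are CM numbers and `c_(D-k)` is not `conj c_k * c_D`. Then

  `D * h(α) ≥ (log φ) / 2`,   `φ = (1 + √5) / 2`,

which is the inequality of Rémond's question with the constant `(log φ) / 2` that depends neither on
`Γ` nor on `D`. For `k = 1` the condition says that the trace `T` of `α` over `L` is CM and that the
trace of `1/α` is not the complex conjugate of `T`. Nothing is assumed about the other coefficients.
The constant is the best possible.

Method. Let `R_σ` be the image of the set of conjugates of `α` over `L` under an embedding `σ` of a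
normal number field `E` that contains them. In the polynomial `P_σ(X) - P_σ(0) P_σ^*(X)`, where
`P_σ^*` is the conjugate reciprocal polynomial, the coefficient of `X ^ j` for `j ≤ k` is
`σ(c_(D-j) - c_D conj c_j)`, because `c_j` is CM. If `j` is the first index for which it is not zero,
the coefficient inequality for bounded analytic functions gives the upper bound
`∏ max(1, |z|)² - ∏ min(1, |z|)²` over `R_σ`. The product over `σ` is bounded below, since it is the
norm of a number of `E` whose denominator is controlled by the leading coefficient of the minimal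
polynomial over `ℤ`; and the weighted inequality of the means with the weights `1/φ`, `1/φ²` gives
the result.
-/

set_option autoImplicit false

open Polynomial

namespace Pool.Agent.Results.MP_f61260_nt.CMTraces

/-- The field `ℚ(Γ_div)`, as in the problem. -/
noncomputable def divField (Γ : Subgroup ℂˣ) : IntermediateField ℚ ℂ :=
  IntermediateField.adjoin ℚ {z : ℂ | z ≠ 0 ∧ ∃ n : ℕ, 1 ≤ n ∧ ∃ g ∈ Γ, (g : ℂ) = z ^ n}

/-- `c` is an algebraic number and `σ (conj c) = conj (σ c)` for all embeddings `σ` of number fields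
`E` (in `ℂ`) that contain `c` and `conj c`. -/
def IsCM (c : ℂ) : Prop := IsAlgebraic ℚ c ∧
  ∀ (E : IntermediateField ℚ ℂ) (_ : FiniteDimensional ℚ E) (h : c ∈ E)
    (h' : starRingEnd ℂ c ∈ E) (σ : E →ₐ[ℚ] ℂ), σ ⟨starRingEnd ℂ c, h'⟩ = starRingEnd ℂ (σ ⟨c, h⟩)

/-- The coefficient `c_j` of `X ^ (D - j)` in the minimal polynomial of `α` over `L`, `D` its
degree. -/
noncomputable def co (L : IntermediateField ℚ ℂ) (α : ℂ) (j : ℕ) : ℂ :=
  (((minpoly L α).coeff ((minpoly L α).natDegree - j) : L) : ℂ)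

/-- For some `k` with `1 ≤ k ≤ D` the coefficients `c_1, ..., c_k` are CM numbers and `c_(D-k)` is
not `conj c_k * c_D`. -/
def Admissible (L : IntermediateField ℚ ℂ) (α : ℂ) : Prop :=
  ∃ k : ℕ, 1 ≤ k ∧ k ≤ (minpoly L α).natDegree ∧ (∀ j, 1 ≤ j → j ≤ k → IsCM (co L α j)) ∧
    co L α ((minpoly L α).natDegree - k) ≠
      starRingEnd ℂ (co L α k) * co L α (minpoly L α).natDegree

/-- The trace of `α` from `L(α)` to `L`: the sum of the conjugates of `α` over `L`. -/
noncomputable def relTrace (L : IntermediateField ℚ ℂ) (α : ℂ) : ℂ :=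
  ((minpoly L α).aroots ℂ).sum

lemma main_log (L : IntermediateField ℚ ℂ) {α : ℂ} {f : ℤ[X]} (hf : Irreducible f)
    (hα : aeval α f = 0) (h0 : α ≠ 0) (hA : Admissible L α) :
    f.natDegree * ((1 + Pool.Agent.X115.Dec.qw) * Real.log Real.goldenRatio) +
        2 * Pool.Agent.X115.Dec.qw * ((minpoly L α).natDegree *
          (Real.log |(f.leadingCoeff : ℝ)| + Real.log |(f.coeff 0 : ℝ)|)) ≤
      2 * (1 + Pool.Agent.X115.Dec.qw) * ((minpoly L α).natDegree *
        Real.log (f.map (Int.castRingHom ℂ)).mahlerMeasure) := by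
  obtain ⟨k, hk1, hkD, hcm, hne⟩ := hA
  refine Pool.Agent.X115.RelC.main L hf hα h0 k hk1 hkD (fun j h1 h2 => (hcm j h1 h2).2) ?_
  unfold co at hne
  rw [Nat.sub_sub_self hkD, Nat.sub_self] at hne
  exact hne

lemma f_facts {α : ℂ} {f : ℤ[X]} (hf : Irreducible f) (hα : aeval α f = 0) (h0 : α ≠ 0) :
    1 ≤ |(f.leadingCoeff : ℝ) * (f.coeff 0 : ℝ)| ∧ 0 < f.natDegree ∧
      0 < (f.map (Int.castRingHom ℂ)).mahlerMeasure := by
  have hf0 : f ≠ 0 := hf.ne_zero
  have hc0 : f.coeff 0 ≠ 0 := by
    intro h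
    obtain ⟨q, hq⟩ := X_dvd_iff.2 h
    rcases hf.isUnit_or_isUnit hq with h1 | h1
    · exact not_isUnit_X h1
    · rw [hq, map_mul, aeval_X] at hα
      rcases mul_eq_zero.1 hα with h2 | h2
      · exact h0 h2
      · obtain ⟨c, hc, rfl⟩ := isUnit_iff.1 h1
        rw [aeval_C] at h2
        have h3 : algebraMap ℤ ℂ c = algebraMap ℤ ℂ 0 := by rw [h2, map_zero]
        exact hc.ne_zero ((algebraMap ℤ ℂ).injective_int h3)
  refine ⟨Pool.Agent.X115.Dec.one_le_abs_mul hc0, Nat.pos_of_ne_zero ?_,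
    Pool.Agent.X115.Dec.M_pos hf0⟩
  intro h
  rw [natDegree_eq_zero] at h
  obtain ⟨c, rfl⟩ := h
  rw [aeval_C] at hα
  have h3 : algebraMap ℤ ℂ c = algebraMap ℤ ℂ 0 := by rw [hα, map_zero]
  exact hf0 (by rw [(algebraMap ℤ ℂ).injective_int h3, C_0])

/-- `X ^ 2 + X - 1` -/
lemma golden_irr : Irreducible (X ^ 2 + X - 1 : ℤ[X]) := by
  have hm : (X ^ 2 + X - 1 : ℤ[X]).Monic := by monicity!
  rw [Polynomial.IsPrimitive.Int.irreducible_iff_irreducible_map_cast hm.isPrimitive]
  have hmap : (X ^ 2 + X - 1 : ℤ[X]).map (Int.castRingHom ℚ) = (X ^ 2 + X - 1 : ℚ[X]) := by simp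
  rw [hmap]
  have hd : (X ^ 2 + X - 1 : ℚ[X]).natDegree = 2 := by compute_degree!
  apply Polynomial.irreducible_of_degree_le_three_of_not_isRoot
  · rw [hd]; decide
  · intro r hr
    rw [IsRoot.def] at hr
    simp only [eval_sub, eval_add, eval_pow, eval_X, eval_one] at hr
    have h1 : (r : ℝ) ^ 2 + r - 1 = 0 := by exact_mod_cast hr
    have h2 : ((r : ℝ) + Real.goldenRatio) * (r + Real.goldenConj) = 0 := by
      have e1 := Real.goldenRatio_add_goldenConj
      have e2 := Real.goldenRatio_mul_goldenConj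
      linear_combination h1 + r * e1 + e2
    rcases mul_eq_zero.1 h2 with h3 | h3
    · apply Real.goldenRatio_irrational
      exact ⟨-r, by push_cast; linarith⟩
    · apply Real.goldenConj_irrational
      exact ⟨-r, by push_cast; linarith⟩

lemma golden_factor : ((X ^ 2 + X - 1 : ℤ[X]).map (Int.castRingHom ℂ)) =
    (X + C (Real.goldenRatio : ℂ)) * (X + C (Real.goldenConj : ℂ)) := by
  have h1 : (Real.goldenRatio : ℂ) + (Real.goldenConj : ℂ) = 1 := by
    exact_mod_cast Real.goldenRatio_add_goldenConj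
  have h2 : (Real.goldenRatio : ℂ) * (Real.goldenConj : ℂ) = -1 := by
    exact_mod_cast Real.goldenRatio_mul_goldenConj
  have h3 : (X + C (Real.goldenRatio : ℂ)) * (X + C (Real.goldenConj : ℂ)) =
      X ^ 2 + C ((Real.goldenRatio : ℂ) + (Real.goldenConj : ℂ)) * X +
        C ((Real.goldenRatio : ℂ) * (Real.goldenConj : ℂ)) := by
    rw [C_add, C_mul]; ring
  rw [h3, h1, h2]
  simp
  ring

lemma golden_measure :
    ((X ^ 2 + X - 1 : ℤ[X]).map (Int.castRingHom ℂ)).mahlerMeasure = Real.goldenRatio := by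
  rw [golden_factor, mahlerMeasure_mul, mahlerMeasure_X_add_C, mahlerMeasure_X_add_C,
    Complex.norm_real, Complex.norm_real, Real.norm_of_nonneg Real.goldenRatio_pos.le,
    max_eq_right Real.one_lt_goldenRatio.le, Real.norm_eq_abs, abs_of_neg Real.goldenConj_neg,
    max_eq_left (by linarith [Real.neg_one_lt_goldenConj]), mul_one]

/-- The relative Lehmer inequality `D h ≥ (log φ)/2` for admissible numbers over any field. -/
theorem result :
    -- (1) the inequality over an arbitrary field `L`, in terms of the Mahler measure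
    (∀ (L : IntermediateField ℚ ℂ) (α : ℂ) (f : ℤ[X]), Irreducible f → aeval α f = 0 → α ≠ 0 →
      Admissible L α → ∀ D : ℕ, D = (minpoly L α).natDegree →
        Real.goldenRatio ^ ((f.natDegree : ℝ) / 2) *
            |(f.leadingCoeff : ℝ) * (f.coeff 0 : ℝ)| ^ ((5 - Real.sqrt 5) / 10 * (D : ℝ)) ≤
          (f.map (Int.castRingHom ℂ)).mahlerMeasure ^ (D : ℝ)) ∧
    -- (2) the inequality of the question, with a constant that does not depend on `Γ`
    (∀ (Γ : Subgroup ℂˣ) (α : ℂ), α ≠ 0 → Admissible (divField Γ) α →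
      ∀ f : ℤ[X], Irreducible f → aeval α f = 0 →
        Real.log Real.goldenRatio / 2 / ((minpoly (divField Γ) α).natDegree : ℝ) ≤
          Real.log (f.map (Int.castRingHom ℂ)).mahlerMeasure / (f.natDegree : ℝ)) ∧
    -- (3) the condition in terms of the relative traces of `α` and `1/α`
    (∀ (L : IntermediateField ℚ ℂ) (α : ℂ), IsAlgebraic ℚ α → α ≠ 0 → IsCM (relTrace L α) →
      (((minpoly L α).aroots ℂ).map (fun z => z⁻¹)).sum ≠ starRingEnd ℂ (relTrace L α) →
        Admissible L α) ∧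
    -- (4) CM numbers: totally real numbers, roots of unity, sums and products
    (∀ c : ℂ, IsAlgebraic ℚ c → (∀ z : ℂ, aeval z (minpoly ℚ c) = 0 → z.im = 0) → IsCM c) ∧
    (∀ (ζ : ℂ) (n : ℕ), 0 < n → ζ ^ n = 1 → IsCM ζ) ∧
    (∀ c d : ℂ, IsCM c → IsCM d → IsCM (c + d) ∧ IsCM (c * d)) ∧
    -- (5) the constant is the best possible
    (∃ (α : ℂ) (f : ℤ[X]), α ≠ 0 ∧ Irreducible f ∧ aeval α f = 0 ∧ Admissible ⊤ α ∧
      (minpoly (⊤ : IntermediateField ℚ ℂ) α).natDegree = 1 ∧
      Real.log (f.map (Int.castRingHom ℂ)).mahlerMeasure / (f.natDegree : ℝ) =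
        Real.log Real.goldenRatio / 2) := by
  have hq := Pool.Agent.X115.Dec.qw_pos
  have p3 : ∀ (L : IntermediateField ℚ ℂ) (α : ℂ), IsAlgebraic ℚ α → α ≠ 0 →
      IsCM (relTrace L α) →
      (((minpoly L α).aroots ℂ).map (fun z => z⁻¹)).sum ≠ starRingEnd ℂ (relTrace L α) →
        Admissible L α := by
    intro L α hα h0 hT hne
    have hαL : IsIntegral L α := hα.isIntegral.tower_top
    obtain ⟨k, h1, h2, h3, h4⟩ := Pool.Agent.X115.RelC.trace_form L hα h0 hT.2 hne
    refine ⟨k, h1, h2, fun j hj1 hj2 => ⟨?_, h3 j hj1 hj2⟩, ?_⟩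
    · exact Pool.Agent.X115.RelC.coeff_alg L hα _
    · unfold co
      rw [Nat.sub_sub_self h2, Nat.sub_self]
      exact h4
  refine ⟨?_, ?_, p3, ?_, ?_, ?_, ?_⟩
  · rintro L α f hf hα h0 hA D rfl
    obtain ⟨h1, h2, h3⟩ := f_facts hf hα h0
    have h4 := main_log L hf hα h0 hA
    apply Pool.Agent.X115.RelC.mul_form Real.goldenRatio_pos (by linarith) h3
    have h5 : Real.log |(f.leadingCoeff : ℝ) * (f.coeff 0 : ℝ)| =
        Real.log |(f.leadingCoeff : ℝ)| + Real.log |(f.coeff 0 : ℝ)| := by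
      rw [abs_mul] at h1 ⊢
      have h6 : |(f.leadingCoeff : ℝ)| * |(f.coeff 0 : ℝ)| ≠ 0 := by positivity
      exact Real.log_mul (left_ne_zero_of_mul h6) (right_ne_zero_of_mul h6)
    rw [h5]
    exact h4
  · intro Γ α h0 hA f hf hα
    obtain ⟨h1, h2, h3⟩ := f_facts hf hα h0
    have h4 := main_log _ hf hα h0 hA
    have hD : 0 < (minpoly (divField Γ) α).natDegree := by
      obtain ⟨k, hk1, hk2, -⟩ := hA
      omega
    have h5 : 0 ≤ Real.log |(f.leadingCoeff : ℝ)| + Real.log |(f.coeff 0 : ℝ)| := by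
      rw [abs_mul] at h1
      have h6 : |(f.leadingCoeff : ℝ)| * |(f.coeff 0 : ℝ)| ≠ 0 := by positivity
      rw [← Real.log_mul (left_ne_zero_of_mul h6) (right_ne_zero_of_mul h6)]
      exact Real.log_nonneg h1
    have hD' : (0 : ℝ) < (minpoly (divField Γ) α).natDegree := by exact_mod_cast hD
    have hN' : (0 : ℝ) < f.natDegree := by exact_mod_cast h2
    rw [div_le_div_iff₀ hD' hN']
    have h6 : 0 ≤ 2 * Pool.Agent.X115.Dec.qw * ((minpoly (divField Γ) α).natDegree *
          (Real.log |(f.leadingCoeff : ℝ)| + Real.log |(f.coeff 0 : ℝ)|)) := by positivity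
    have h7 : (1 + Pool.Agent.X115.Dec.qw) * (f.natDegree * Real.log Real.goldenRatio) ≤
        (1 + Pool.Agent.X115.Dec.qw) * (2 * ((minpoly (divField Γ) α).natDegree *
          Real.log (f.map (Int.castRingHom ℂ)).mahlerMeasure)) := by linarith
    have h8 := le_of_mul_le_mul_left h7 (by linarith)
    linarith
  · exact fun c hc hr => ⟨hc, Pool.Agent.X115.RelC.cm_real hr⟩
  · refine fun ζ n hn hζ => ⟨?_, Pool.Agent.X115.RelC.cm_root hn hζ⟩
    refine ⟨X ^ n - 1, (monic_X_pow_sub_C (1 : ℚ) hn.ne').ne_zero, ?_⟩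
    simp [hζ]
  · intro c d hc hd
    obtain ⟨h1, h2⟩ := Pool.Agent.X115.RelC.cm_two hc.2 hd.2 hc.1 hd.1
    exact ⟨⟨hc.1.add hd.1, h1⟩, ⟨hc.1.mul hd.1, h2⟩⟩
  · have hroot : aeval (-(Real.goldenRatio : ℂ)) (X ^ 2 + X - 1 : ℤ[X]) = 0 := by
      have h1 : eval (-(Real.goldenRatio : ℂ)) ((X ^ 2 + X - 1 : ℤ[X]).map (Int.castRingHom ℂ)) = 0 := by
        rw [golden_factor]; simp
      rw [eval_map] at h1
      exact h1
    have hφ0 : (-(Real.goldenRatio : ℂ)) ≠ 0 := by
      rw [neg_ne_zero]
      exact_mod_cast Real.goldenRatio_pos.ne'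
    set α : ℂ := -(Real.goldenRatio : ℂ) with hαdef
    have halg : IsAlgebraic ℚ α :=
      ⟨(X ^ 2 + X - 1 : ℤ[X]).map (algebraMap ℤ ℚ),
        (Polynomial.map_ne_zero_iff (algebraMap ℤ ℚ).injective_int).2 golden_irr.ne_zero,
        by rw [aeval_map_algebraMap, hroot]⟩
    have hmp : minpoly (⊤ : IntermediateField ℚ ℂ) α =
        X - C (⟨α, IntermediateField.mem_top⟩ : (⊤ : IntermediateField ℚ ℂ)) :=
      minpoly.eq_X_sub_C ℂ (⟨α, IntermediateField.mem_top⟩ : (⊤ : IntermediateField ℚ ℂ))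
    have har : (minpoly (⊤ : IntermediateField ℚ ℂ) α).aroots ℂ = {α} := by
      rw [hmp, aroots_def, Polynomial.map_sub, map_X, map_C, roots_X_sub_C]
      rfl
    have hCM : IsCM α := by
      refine ⟨halg, Pool.Agent.X115.RelC.cm_real fun z hz => ?_⟩
      have h1 : minpoly ℚ α ∣ (X ^ 2 + X - 1 : ℤ[X]).map (algebraMap ℤ ℚ) := by
        apply minpoly.dvd
        rw [aeval_map_algebraMap, hroot]
      obtain ⟨q, hq⟩ := h1
      have h2 : aeval z (X ^ 2 + X - 1 : ℤ[X]) = 0 := by
        rw [← aeval_map_algebraMap ℚ, hq, map_mul, hz, zero_mul]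
      have h3 : eval z ((X ^ 2 + X - 1 : ℤ[X]).map (Int.castRingHom ℂ)) = 0 := by
        rw [eval_map]
        exact h2
      rw [golden_factor, eval_mul, mul_eq_zero] at h3
      rcases h3 with h3 | h3
      · rw [eval_add, eval_X, eval_C] at h3
        rw [eq_neg_of_add_eq_zero_left h3]
        simp
      · rw [eval_add, eval_X, eval_C] at h3
        rw [eq_neg_of_add_eq_zero_left h3]
        simp
    refine ⟨α, X ^ 2 + X - 1, hφ0, golden_irr, hroot, ?_, ?_, ?_⟩
    · apply p3 ⊤ α halg hφ0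
      · unfold relTrace
        rw [har, Multiset.sum_singleton]
        exact hCM
      · unfold relTrace
        rw [har, Multiset.sum_singleton, Multiset.map_singleton, Multiset.sum_singleton]
        intro h
        have h1 : starRingEnd ℂ α = α := by rw [hαdef, map_neg, Complex.conj_ofReal]
        rw [h1] at h
        have h2 : α * α = 1 := by
          have := mul_inv_cancel₀ hφ0
          rwa [h] at this
        rw [hαdef] at h2
        have h3 : Real.goldenRatio * Real.goldenRatio = 1 := by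
          have h4 : ((Real.goldenRatio * Real.goldenRatio : ℝ) : ℂ) = ((1 : ℝ) : ℂ) := by
            rw [Complex.ofReal_mul, Complex.ofReal_one, ← neg_mul_neg]
            exact h2
          exact Complex.ofReal_injective h4
        nlinarith [Real.one_lt_goldenRatio]
    · rw [hmp, natDegree_X_sub_C]
    · rw [golden_measure]
      have : (X ^ 2 + X - 1 : ℤ[X]).natDegree = 2 := by compute_degree!
      rw [this]
      norm_num

end Pool.Agent.Results.MP_f61260_nt.CMTraces
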