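import Mathlib
import Pool.Agent.X184.SZ.G

/-!
# The relative Schinzel–Zassenhaus inequality over `K(μ_∞)` and its quadratic mean form

Let `z ≠ 0` be an algebraic integer, not a root of unity, `K ⊆ ℂ` a number field and

  `D = [K(μ_∞)(z) : K(μ_∞)]`,

the degree of `z` over the field generated over `K` by all roots of unity. Let `h(z)` be the height of
`z`, `house z` the largest absolute value of a conjugate of `z` over `ℚ`, and `M₂(z)` the mean over
all conjugates `w` of `z` over `ℚ` of `(log⁺ |w|) ^ 2`. Then

(1) `1 / 640 ≤ ([K : ℚ] * D) ^ 2 * M₂(z)`,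

(2) `1 / 26 < [K : ℚ] * D * log (house z)`,

(3) `1 / 640 ≤ [K : ℚ] ^ 2 * (D * h(z)) * (D * log (house z))`.

The constants are absolute; the degree of `z` over `ℚ` does not enter. Since `h(z)` is the mean of
`log⁺ |w|` and `log (house z)` its maximum, (1) and (2) are the `L²` and the `L^∞` form of the
relative Lehmer inequality `D * h(z) ≥ c` (the case `Γ = {1}`, `Γ_div = μ_∞` of Rémond's question),
which is the `L¹` form; (2) is the relative form of the Schinzel–Zassenhaus conjecture. By (3) the
relative Lehmer inequality `D * h(z) ≥ 1 / (640 * C * [K : ℚ] ^ 2)` itself holds for all `z` with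
`log (house z) ≤ C / D`.

Method: Dimitrov's, over number fields. Let `F` be the minimal polynomial of `z` over `ℚ(μ_m)`, with
coefficients in `ℤ[ζ_m]`. If `m` is odd, the Graeffe transform of the Frobenius conjugate of `F`
(zeros: squares of the zeros of a conjugate) and the second Graeffe transform of `F` (zeros: fourth
powers) are congruent modulo `4`, so their product has a square root in `ℤ[ζ_m][[X]]`; if `4` divides
`m`, one takes the conjugate under `ζ ↦ -ζ` instead of the Frobenius conjugate, and twists by roots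
of unity if necessary. The square roots of all conjugates are treated simultaneously: the norm of the
product of their Hankel determinants is estimated by the weighted energy inequality of the library
(`Pool/Agent/H904L2`), and Kronecker's criterion over `ℚ(ζ_m)` gives rationality.
-/

set_option autoImplicit false

open Polynomial

namespace Pool.Agent.Results.MP_f61260_nt.RelativeSchinzelZassenhaus

/-- the field `ℚ(μ_∞) ⊆ ℂ` generated by all roots of unity -/
noncomputable def QAb : IntermediateField ℚ ℂ :=
  IntermediateField.adjoin ℚ {z : ℂ | ∃ n : ℕ, 0 < n ∧ z ^ n = 1}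

/-- the multiset of the conjugates of `z` over `ℚ`: the complex zeros of its minimal polynomial over
`ℤ` -/
noncomputable def conjugates (z : ℂ) : Multiset ℂ := ((minpoly ℤ z).map (Int.castRingHom ℂ)).roots

/-- the absolute logarithmic height of an algebraic integer `z`: the logarithm of the Mahler measure
of its minimal polynomial over `ℤ`, divided by the degree -/
noncomputable def height (z : ℂ) : ℝ :=
  Real.log ((minpoly ℤ z).map (Int.castRingHom ℂ)).mahlerMeasure / (minpoly ℤ z).natDegree

/-- the mean over the conjugates `w` of `z` of `(log⁺ |w|) ^ 2` -/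
noncomputable def meanSquare (z : ℂ) : ℝ :=
  ((conjugates z).map fun w => (Real.posLog ‖w‖) ^ 2).sum / (minpoly ℤ z).natDegree

/-- the largest absolute value of a conjugate of `z` -/
noncomputable def house (z : ℂ) : ℝ := sSup {r : ℝ | ∃ w ∈ conjugates z, r = ‖w‖}

/-- the degree of `z` over `K(μ_∞)` -/
noncomputable def deg (K : IntermediateField ℚ ℂ) (z : ℂ) : ℕ :=
  (minpoly (K ⊔ QAb : IntermediateField ℚ ℂ) z).natDegree

lemma le_house (z : ℂ) {w : ℂ} (hw : w ∈ conjugates z) : ‖w‖ ≤ house z := by
  classical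
  apply le_csSup
  · refine ⟨∑ v ∈ (conjugates z).toFinset, ‖v‖, ?_⟩
    rintro r ⟨v, hv, rfl⟩
    exact Finset.single_le_sum (f := fun v : ℂ => ‖v‖) (fun v _ => norm_nonneg v)
      (Multiset.mem_toFinset.mpr hv)
  · exact ⟨w, hw, rfl⟩

lemma sum_sq_le (S : Multiset ℂ) (B : ℝ) (hB : ∀ w ∈ S, Real.posLog ‖w‖ ≤ B) :
    (S.map fun w => (Real.posLog ‖w‖) ^ 2).sum ≤ B * (S.map fun w => Real.posLog ‖w‖).sum := by
  rw [← Multiset.sum_map_mul_left]
  apply Multiset.sum_map_le_sum_map
  intro w hw
  rw [sq]
  exact mul_le_mul_of_nonneg_right (hB w hw) Real.posLog_nonneg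

lemma height_eq (z : ℂ) (hz : IsIntegral ℤ z) :
    height z = ((conjugates z).map fun w => Real.posLog ‖w‖).sum / (minpoly ℤ z).natDegree := by
  unfold height conjugates
  rw [← logMahlerMeasure_eq_log_MahlerMeasure,
    logMahlerMeasure_eq_log_leadingCoeff_add_sum_log_roots, ((minpoly.monic hz).map _).leadingCoeff,
    norm_one, Real.log_one, zero_add]

theorem result (z : ℂ) (hz : IsIntegral ℤ z) (h0 : z ≠ 0) (hroot : ∀ k : ℕ, 0 < k → z ^ k ≠ 1)
    (K : IntermediateField ℚ ℂ) [FiniteDimensional ℚ K] :
    (1 : ℝ) / 640 ≤ ((Module.finrank ℚ K : ℝ) * deg K z) ^ 2 * meanSquare z ∧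
    (1 : ℝ) / 26 < (Module.finrank ℚ K : ℝ) * deg K z * Real.log (house z) ∧
    (1 : ℝ) / 640 ≤ (Module.finrank ℚ K : ℝ) ^ 2 * (deg K z * height z) *
      (deg K z * Real.log (house z)) := by
  have h1 := (Pool.Agent.X184.SZ.algL z hz h0 hroot).2 K
  have h1' : (1 : ℝ) / 640 ≤ ((Module.finrank ℚ K : ℝ) * deg K z) ^ 2 * meanSquare z := h1
  have hd : (0:ℝ) < (minpoly ℤ z).natDegree := by exact_mod_cast minpoly.natDegree_pos hz
  have hX0 : (0:ℝ) ≤ ((Module.finrank ℚ K : ℝ) * deg K z) ^ 2 := sq_nonneg _
  -- the house is larger than one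
  have hM : 0 < meanSquare z := by
    by_contra hneg
    push Not at hneg
    have : ((Module.finrank ℚ K : ℝ) * deg K z) ^ 2 * meanSquare z ≤ 0 :=
      mul_nonpos_of_nonneg_of_nonpos hX0 hneg
    linarith
  have hbig : ∃ w ∈ conjugates z, 1 < ‖w‖ := by
    by_contra hcon
    push Not at hcon
    have h2 : ((conjugates z).map fun w => (Real.posLog ‖w‖) ^ 2).sum = 0 := by
      apply Multiset.sum_eq_zero
      intro x hx
      obtain ⟨w, hw, rfl⟩ := Multiset.mem_map.mp hx
      have h3 : Real.posLog ‖w‖ = 0 :=
        (Real.posLog_eq_zero_iff _).mpr (by rw [abs_of_nonneg (norm_nonneg w)]; exact hcon w hw)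
      rw [h3]
      norm_num
    unfold meanSquare at hM
    rw [h2, zero_div] at hM
    exact lt_irrefl _ hM
  obtain ⟨w₀, hw₀, hw1⟩ := hbig
  have hh1 : 1 < house z := lt_of_lt_of_le hw1 (le_house z hw₀)
  set B := Real.log (house z) with hBdef
  have hB0 : 0 < B := Real.log_pos hh1
  have hB : ∀ w ∈ conjugates z, Real.posLog ‖w‖ ≤ B := by
    intro w hw
    rw [Real.posLog_eq_log_max_one (norm_nonneg w)]
    exact Real.log_le_log (by positivity) (max_le hh1.le (le_house z hw))
  have h3 : meanSquare z ≤ B * height z := by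
    rw [height_eq z hz]
    unfold meanSquare
    rw [← mul_div_assoc]
    exact div_le_div_of_nonneg_right (sum_sq_le _ B hB) hd.le
  have h4 : height z ≤ B := by
    rw [height_eq z hz, div_le_iff₀ hd]
    have h5 : ((conjugates z).map fun w => Real.posLog ‖w‖).sum ≤
        Multiset.card ((conjugates z).map fun w => Real.posLog ‖w‖) • B := by
      apply Multiset.sum_le_card_nsmul
      intro x hx
      obtain ⟨w, hw, rfl⟩ := Multiset.mem_map.mp hx
      exact hB w hw
    have h6 : Multiset.card (conjugates z) = (minpoly ℤ z).natDegree := by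
      unfold conjugates
      rw [← (IsAlgClosed.splits _).natDegree_eq_card_roots,
        (minpoly.monic hz).natDegree_map]
    rw [Multiset.card_map, h6, nsmul_eq_mul] at h5
    linarith
  refine ⟨h1', ?_, ?_⟩
  · set Y := (Module.finrank ℚ K : ℝ) * deg K z with hY
    have hY0 : 0 ≤ Y := by positivity
    have h5 : meanSquare z ≤ B ^ 2 := by
      rw [sq]
      exact h3.trans (mul_le_mul_of_nonneg_left h4 hB0.le)
    have h6 : (1 : ℝ) / 640 ≤ (Y * B) ^ 2 := by
      rw [mul_pow]
      exact h1'.trans (mul_le_mul_of_nonneg_left h5 hX0)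
    by_contra hcon
    push Not at hcon
    have h7 : (Y * B) ^ 2 ≤ (1 / 26) ^ 2 := pow_le_pow_left₀ (by positivity) hcon 2
    norm_num at h7 h6
    linarith
  · calc (1 : ℝ) / 640 ≤ ((Module.finrank ℚ K : ℝ) * deg K z) ^ 2 * meanSquare z := h1'
      _ ≤ ((Module.finrank ℚ K : ℝ) * deg K z) ^ 2 * (B * height z) :=
          mul_le_mul_of_nonneg_left h3 hX0
      _ = _ := by ring

end Pool.Agent.Results.MP_f61260_nt.RelativeSchinzelZassenhaus
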