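import Mathlib
import Pool.Agent.X184.Rel.D

/-!
# Rémond's inequality for numbers with a sparse minimal polynomial over `ℚ(Γ_div)`

Let `F` be any field of complex numbers, for instance `F = ℚ(Γ_div)` for a subgroup `Γ` of `ℂ*`. Let
`α` be an algebraic integer, `f` its minimal polynomial over `F` and `D` the degree of `f` (that is
`D = D_Γ(α)` for `F = ℚ(Γ_div)`).

(1) Suppose that no quotient of two distinct zeros of `f` is a root of unity, and that `P(α) = 0` for
a polynomial `P ≠ 0` over `F` with algebraic coefficients and with `k` nonzero coefficients. If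
`D ≥ 4 k ^ 2 (1 + log D)`, then `h(α) ≥ 1 / (12 k ^ 2 deg P)`.

(2) Let `F` contain all the roots of unity, let `k` be the number of the nonzero coefficients of `f`
and let `d = D / r`, where `r` is the greatest common divisor of the exponents of `f`. If
`d ≥ 4 k ^ 2 (1 + log d)`, then `h(α) ≥ 1 / (12 k ^ 2 D)`.

(3) In particular this holds for `F = ℚ(Γ_div)`, for all subgroups `Γ` of `ℂ*`: Rémond's inequality
`h(α) ≥ c / D_Γ(α)` holds with a constant `c` which depends on `k` only, neither on `Γ` nor on `D`.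

The field `F` is arbitrary and the bounds do not depend on it; the coefficients of `f` and `P` are
arbitrary as well.

Method: for every embedding `τ` of a number field `E` which contains the conjugates `α_i` of `α` over
`F` and the coefficients of `P`, the relation `P^τ(τ α_i) = 0` makes the Gram matrix of size `k` of
the sums `∑_i u_i ^ (a - b)`, `u_i = τ α_i / |τ α_i|`, `a`, `b` exponents of `P`, nearly singular,
so at least one of these sums is large. The positive definite kernel `-log |1 - t x conj y|` at the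
reflected numbers `τ α_i ^ m`, together with the product formula for the discriminant of the
`α_i ^ m`, bounds these sums in the mean over all `τ`.
-/

set_option autoImplicit false

open Polynomial

namespace Pool.Agent.Results.MP_f61260_nt.SparseRelative

/-- The absolute logarithmic Weil height of an algebraic integer. -/
noncomputable def height (α : ℂ) : ℝ :=
  Real.log ((minpoly ℤ α).map (Int.castRingHom ℂ)).mahlerMeasure / (minpoly ℤ α).natDegree

/-- The field `ℚ(Γ_div)`, as in the problem. -/
noncomputable def divField (Γ : Subgroup ℂˣ) : IntermediateField ℚ ℂ :=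
  IntermediateField.adjoin ℚ {z : ℂ | z ≠ 0 ∧ ∃ n : ℕ, 1 ≤ n ∧ ∃ g ∈ Γ, (g : ℂ) = z ^ n}

/-- No quotient of two distinct conjugates of `α` over `F` is a root of unity. -/
def Nondegenerate (F : IntermediateField ℚ ℂ) (α : ℂ) : Prop :=
  ∀ z ∈ (minpoly F α).rootSet ℂ, ∀ w ∈ (minpoly F α).rootSet ℂ, z ≠ w →
    ∀ m : ℕ, 0 < m → z ^ m ≠ w ^ m

/-- The field contains all the roots of unity. -/
def ContainsRootsOfUnity (F : IntermediateField ℚ ℂ) : Prop :=
  ∀ ζ : ℂ, ∀ n : ℕ, 0 < n → ζ ^ n = 1 → ζ ∈ F

lemma of_one_le {k n : ℕ} {h : ℝ} (h1 : 1 ≤ 12 * (k : ℝ) ^ 2 * (n * h)) :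
    1 / (12 * (k : ℝ) ^ 2 * n) ≤ h := by
  have hk : (0:ℝ) < k := by
    rcases Nat.eq_zero_or_pos k with e | e
    · rw [e] at h1
      norm_num at h1
    · exact_mod_cast e
  have hn : (0:ℝ) < n := by
    rcases Nat.eq_zero_or_pos n with e | e
    · rw [e] at h1
      norm_num at h1
    · exact_mod_cast e
  rw [div_le_iff₀ (by positivity)]
  linarith

theorem result :
    (∀ (F : IntermediateField ℚ ℂ) (α : ℂ), IsIntegral ℤ α → Nondegenerate F α →
      ∀ P : F[X], P ≠ 0 → aeval α P = 0 → (∀ i, IsAlgebraic ℚ ((P.coeff i : F) : ℂ)) →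
      ∀ k D : ℕ, k = P.support.card → D = (minpoly F α).natDegree →
        4 * (k : ℝ) ^ 2 * (1 + Real.log D) ≤ D →
          1 / (12 * (k : ℝ) ^ 2 * P.natDegree) ≤ height α) ∧
    (∀ F : IntermediateField ℚ ℂ, ContainsRootsOfUnity F → ∀ α : ℂ, IsIntegral ℤ α →
      ∀ k D d : ℕ, k = (minpoly F α).support.card → D = (minpoly F α).natDegree →
        D = d * (minpoly F α).support.gcd id → 4 * (k : ℝ) ^ 2 * (1 + Real.log d) ≤ d →
          1 / (12 * (k : ℝ) ^ 2 * D) ≤ height α) ∧
    (∀ (Γ : Subgroup ℂˣ) (α : ℂ), IsIntegral ℤ α →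
      ∀ k d : ℕ, k = (minpoly (divField Γ) α).support.card →
        (minpoly (divField Γ) α).natDegree = d * (minpoly (divField Γ) α).support.gcd id →
        4 * (k : ℝ) ^ 2 * (1 + Real.log d) ≤ d →
      ∀ f : ℤ[X], Irreducible f → aeval α f = 0 →
        1 / (12 * (k : ℝ) ^ 2) / ((minpoly (divField Γ) α).natDegree : ℝ) ≤
          Real.log (f.map (Int.castRingHom ℂ)).mahlerMeasure / (f.natDegree : ℝ)) := by
  have h2 : ∀ F : IntermediateField ℚ ℂ, ContainsRootsOfUnity F → ∀ α : ℂ, IsIntegral ℤ α →
      ∀ k D d : ℕ, k = (minpoly F α).support.card → D = (minpoly F α).natDegree →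
        D = d * (minpoly F α).support.gcd id → 4 * (k : ℝ) ^ 2 * (1 + Real.log d) ≤ d →
          1 / (12 * (k : ℝ) ^ 2 * D) ≤ height α := by
    intro F hμ α hα k D d hk hD hd h
    apply of_one_le
    subst hk
    subst hD
    exact Pool.Agent.X184.Rel.sparse_cyc F hμ hα _ d rfl hd h
  refine ⟨?_, h2, ?_⟩
  · intro F α hα hnd P hP0 hP halg k D hk hD h
    apply of_one_le
    subst hk
    subst hD
    exact Pool.Agent.X184.Rel.rel_sparse F hα hnd P hP0 hP halg h
  · intro Γ α hα k d hk hd h f hf h0
    have hμ : ContainsRootsOfUnity (divField Γ) := by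
      intro ζ n hn hζ
      apply IntermediateField.subset_adjoin
      refine ⟨?_, n, hn, 1, Γ.one_mem, ?_⟩
      · rintro rfl
        rw [zero_pow hn.ne'] at hζ
        exact zero_ne_one hζ
      · rw [hζ]
        rfl
    have h3 := h2 (divField Γ) hμ α hα k _ d hk rfl hd h
    rw [Pool.Agent.TH860.LP.hgt_eq hα f hf h0, div_div]
    exact h3

end Pool.Agent.Results.MP_f61260_nt.SparseRelative
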